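import Pool.Agent.Helper21.VW.Base

open Polynomial NumberField

namespace Pool.Agent.Helper12.VW

/-- VW-A6: norm form over a subfield (`L = K` allowed). -/
theorem normForm_of_algebra {n : ℕ} (hn : 1 ≤ n) (a : Fin (n + 1) → ℤ)
    (hlast : a (Fin.last n) ≠ 0)
    (hirr : Irreducible (ratPoly a)) (K : Type) [Field K] [NumberField K]
    (hK : Module.finrank ℚ K = n) (θ : K) (hθ : aeval θ (ratPoly a) = 0)
    (L : Type) [Field L] [NumberField L] [Algebra L K] :
    NormForm a L (Module.finrank L K) := by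
  classical
  have hmin := minpoly_root a hlast hirr K θ hθ
  have hmindeg := natDegree_minpoly_root a hlast hirr K θ hθ
  have htop := adjoin_root_eq_top a hlast hirr K hK θ hθ
  have hθint : IsIntegral ℚ θ := Algebra.IsIntegral.isIntegral θ
  have hθL : IsIntegral L θ := Algebra.IsIntegral.isIntegral θ
  have htopL : IntermediateField.adjoin L {θ} = ⊤ :=
    IntermediateField.adjoin_eq_top_of_adjoin_eq_top ℚ htop
  have hgdeg : (minpoly L θ).natDegree = Module.finrank L K :=
    (Field.primitive_element_iff_minpoly_natDegree_eq L θ).1 htopL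
  have hgmon : (minpoly L θ).Monic := minpoly.monic hθL
  refine ⟨minpoly L θ, hgmon, hgdeg, ?_⟩
  set P : ℂ[X] := ∏ τ : L →+* ℂ, (minpoly L θ).map τ with hP
  have hPmon : P.Monic := monic_prod_of_monic _ _ fun τ _ => hgmon.map τ
  have hPdeg : P.natDegree = n := by
    rw [hP, natDegree_prod_of_monic _ _ fun τ _ => hgmon.map τ]
    have : ∀ τ ∈ (Finset.univ : Finset (L →+* ℂ)), ((minpoly L θ).map τ).natDegree =
        Module.finrank L K := by
      intro τ _
      rw [natDegree_map, hgdeg]
    rw [Finset.sum_congr rfl this, Finset.sum_const, Finset.card_univ,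
      NumberField.Embeddings.card L ℂ, smul_eq_mul, Module.finrank_mul_finrank, hK]
  set M : ℂ[X] := (minpoly ℚ θ).map (algebraMap ℚ ℂ) with hM
  have hMmon : M.Monic := (minpoly.monic hθint).map _
  have hMdeg : M.natDegree = n := by rw [hM, natDegree_map, hmindeg]
  have hMnodup : M.roots.Nodup := nodup_roots ((minpoly.irreducible hθint).separable.map)
  have hsub : M.roots ≤ P.roots := by
    rw [Multiset.le_iff_subset hMnodup]
    intro r hr
    have h1 : r ∈ (minpoly ℚ θ).rootSet ℂ := by
      rw [mem_rootSet]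
      refine ⟨minpoly.ne_zero hθint, ?_⟩
      have := isRoot_of_mem_roots hr
      rwa [IsRoot, hM, eval_map_algebraMap] at this
    rw [← NumberField.Embeddings.range_eval_eq_rootSet_minpoly K ℂ θ] at h1
    obtain ⟨σ, rfl⟩ := h1
    rw [mem_roots hPmon.ne_zero, IsRoot, hP, eval_prod]
    apply Finset.prod_eq_zero (Finset.mem_univ (σ.comp (algebraMap L K)))
    rw [eval_map, ← hom_eval₂, ← aeval_def, minpoly.aeval, map_zero]
  have hdvd : M ∣ P := by
    have h1 : M = (M.roots.map fun r => X - C r).prod :=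
      (IsAlgClosed.splits M).eq_prod_roots_of_monic hMmon
    rw [h1]
    exact (Multiset.prod_dvd_prod_of_le (Multiset.map_le_map hsub)).trans
      (prod_multiset_X_sub_C_dvd P)
  have hPM : P = M := eq_of_monic_of_dvd_of_natDegree_le hMmon hPmon hdvd (by rw [hPdeg, hMdeg])
  have h2 : (toPoly a).map (Int.castRingHom ℂ) = (ratPoly a).map (algebraMap ℚ ℂ) := by
    unfold ratPoly
    rw [map_map]
    congr 1
  rw [hPM, hM, hmin, h2, Polynomial.map_mul, map_C, mul_left_comm, ← C_mul]
  have h3 : ((a (Fin.last n) : ℤ) : ℂ) * algebraMap ℚ ℂ ((a (Fin.last n) : ℚ))⁻¹ = 1 := by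
    rw [map_inv₀]
    have : (algebraMap ℚ ℂ) ((a (Fin.last n) : ℤ) : ℚ) = ((a (Fin.last n) : ℤ) : ℂ) := by simp
    rw [this]
    exact mul_inv_cancel₀ (by exact_mod_cast hlast)
  rw [h3, C_1, mul_one]

end Pool.Agent.Helper12.VW
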