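import Pool.Agent.Helper21.VW.A4
import Pool.Agent.Helper21.VW.A6
import Pool.Agent.Helper97.VW.GalPrim

open Polynomial NumberField

namespace Pool.Agent.Helper12.VW

private theorem exists_root_field {n : ℕ} (a : Fin (n + 1) → ℤ) (hlast : a (Fin.last n) ≠ 0)
    (hirr : Irreducible (ratPoly a)) :
    ∃ (K : Type) (_ : Field K) (_ : NumberField K) (θ : K),
      Module.finrank ℚ K = n ∧ aeval θ (ratPoly a) = 0 := by
  have hfact : Fact (Irreducible (ratPoly a)) := ⟨hirr⟩
  have hfin : Module.Finite ℚ (AdjoinRoot (ratPoly a)) :=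
    (AdjoinRoot.powerBasis hirr.ne_zero).finite
  have hfr : Module.finrank ℚ (AdjoinRoot (ratPoly a)) = n := by
    rw [(AdjoinRoot.powerBasis hirr.ne_zero).finrank, AdjoinRoot.powerBasis_dim,
      (natDegree_ratPoly a hlast).1]
  have hnf : NumberField (AdjoinRoot (ratPoly a)) := NumberField.of_module_finite ℚ _
  refine ⟨AdjoinRoot (ratPoly a), inferInstance, hnf, AdjoinRoot.root (ratPoly a), ?_, ?_⟩
  · convert hfr
  · rw [aeval_def]
    have : algebraMap ℚ (AdjoinRoot (ratPoly a)) = AdjoinRoot.of (ratPoly a) :=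
      Subsingleton.elim _ _
    rw [this, AdjoinRoot.eval₂_root]

private theorem prim_of_min (K : Type) [Field K] [NumberField K] (L : Type) [Field L]
    [NumberField L] [Algebra L K]
    (hmin : ∀ F : IntermediateField ℚ K, F ≠ ⊥ → Module.finrank ℚ L ≤ Module.finrank ℚ F) :
    IsPrim L := by
  intro E
  let φ : L →ₐ[ℚ] K := IsScalarTower.toAlgHom ℚ L K
  by_cases h : E.map φ = ⊥
  · left
    apply IntermediateField.map_injective φ
    rw [h, IntermediateField.map_bot]
  · right
    have h1 := hmin _ h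
    have h2 : Module.finrank ℚ (E.map φ) = Module.finrank ℚ E :=
      ((IntermediateField.equivMap E φ).toLinearEquiv.finrank_eq).symm
    rw [h2] at h1
    apply IntermediateField.eq_of_le_of_finrank_le le_top
    rw [IntermediateField.finrank_top']
    exact h1

private theorem vD_tower (K : Type) [Field K] [NumberField K] (L : Type) [Field L]
    [NumberField L] [Algebra L K] (p : ℕ) : Module.finrank L K * vD L p ≤ vD K p := by
  have h := natAbs_discr_eq_absNorm_differentIdeal_mul_natAbs_discr_pow L (𝓞 L) K (𝓞 K)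
  have h1 : (discr L).natAbs ^ Module.finrank L K ∣ (discr K).natAbs := ⟨_, by rw [h, mul_comm]⟩
  have hL : (discr L).natAbs ^ Module.finrank L K ≠ 0 :=
    pow_ne_zero _ (Int.natAbs_ne_zero.2 (discr_ne_zero L))
  have hK : (discr K).natAbs ≠ 0 := Int.natAbs_ne_zero.2 (discr_ne_zero K)
  have h2 := (Nat.factorization_le_iff_dvd hL hK).2 h1 p
  rw [Nat.factorization_pow] at h2
  simpa [vD] using h2

private theorem InInd.mono {n : ℕ} {a : Fin (n + 1) → ℤ} {p k k' : ℕ} (h : InInd a p k)
    (hk : k' ≤ k) : InInd a p k' := by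
  obtain ⟨hp, h⟩ := h
  refine ⟨hp, ?_⟩
  rcases h with h | h
  · exact Or.inl h
  · right
    omega

/-- VW-A7 (uses A4, A5, A6): structure of the bad irreducible polynomials. -/
theorem struct {n : ℕ} (hn : 2 ≤ n) (a : Fin (n + 1) → ℤ) (hlast : a (Fin.last n) ≠ 0)
    (hirr : Irreducible (ratPoly a))
    (hbad : ¬ Nonempty ((ratPoly a).Gal ≃* Equiv.Perm (Fin n))) :
    ∃ (k m : ℕ) (L : Type) (_ : Field L) (_ : NumberField L),
      2 ≤ k ∧ 1 ≤ m ∧ k * m = n ∧ Module.finrank ℚ L = k ∧ IsPrim L ∧ NormForm a L m ∧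
      (∀ p : ℕ, p.Prime → n < p → InInd a p (m * vD L p)) ∧
      (m = 1 → ∀ p : ℕ, p.Prime → vD L p ≠ 1) := by
  obtain ⟨K, _, _, θ, hK, hθ⟩ := exists_root_field a hlast hirr
  by_cases hprim : IsPrim K
  · refine ⟨n, 1, K, inferInstance, inferInstance, hn, le_rfl, mul_one n, hK, hprim, ?_, ?_, ?_⟩
    · have := normForm_of_algebra (by omega) a hlast hirr K hK θ hθ K
      rwa [Module.finrank_self] at this
    · intro p hp hnp
      rw [one_mul]
      exact index_of_root_field (by omega) a hlast hirr K hK θ hθ p hp hnp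
    · intro _ p hp h1
      exact hbad (gal_of_vD_eq_one hn a hlast hirr K hK θ hθ hprim p hp h1)
  · have hprim' : ∃ F₀ : IntermediateField ℚ K, F₀ ≠ ⊥ ∧ F₀ ≠ ⊤ := by
      by_contra hcon
      push Not at hcon
      exact hprim fun F => or_iff_not_imp_left.2 (hcon F)
    obtain ⟨F₀, h0b, h0t⟩ := hprim'
    obtain ⟨F, hFb, hFmin⟩ := WellFounded.has_min
      (measure (fun F : IntermediateField ℚ K => Module.finrank ℚ F)).wf {F | F ≠ ⊥} ⟨F₀, h0b⟩
    have hFmin' : ∀ F' : IntermediateField ℚ K, F' ≠ ⊥ → Module.finrank ℚ F ≤ Module.finrank ℚ F' :=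
      fun F' h => not_lt.1 (hFmin F' h)
    have hkm : Module.finrank ℚ F * Module.finrank F K = n := by
      rw [Module.finrank_mul_finrank, hK]
    have hk1 : Module.finrank ℚ F ≠ 1 := by
      intro h
      exact hFb (IntermediateField.finrank_eq_one_iff.1 h)
    have hk0 : 0 < Module.finrank ℚ F := Module.finrank_pos
    have hFn : Module.finrank ℚ F < n := by
      refine lt_of_le_of_lt (hFmin' F₀ h0b) ?_
      rw [← hK]
      refine lt_of_le_of_ne (Submodule.finrank_le (Subalgebra.toSubmodule F₀.toSubalgebra)) ?_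
      intro h
      apply h0t
      apply IntermediateField.eq_of_le_of_finrank_eq le_top
      rw [h, IntermediateField.finrank_top']
    have hm0 : 0 < Module.finrank F K := Module.finrank_pos
    have hm1 : Module.finrank F K ≠ 1 := by
      intro h
      rw [h, mul_one] at hkm
      omega
    have hFprim : IsPrim F := by
      apply prim_of_min K F
      intro F' h
      have := hFmin' F' h
      convert this
    refine ⟨Module.finrank ℚ F, Module.finrank F K, F, inferInstance, inferInstance, by omega,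
      hm0, hkm, ?_, hFprim, ?_, ?_, ?_⟩
    · congr!
    · exact normForm_of_algebra (by omega) a hlast hirr K hK θ hθ F
    · intro p hp hnp
      exact (index_of_root_field (by omega) a hlast hirr K hK θ hθ p hp hnp).mono (vD_tower K F p)
    · intro h
      exact absurd h hm1

end Pool.Agent.Helper12.VW
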