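import Pool.Agent.Helper12.VW.Defs

open Polynomial NumberField

namespace Pool.Agent.Helper12.VW

private theorem exists_extend {R S M : Type} [CommRing R] [CommRing S] [Algebra R S]
    [Algebra.IsIntegral R S] [FaithfulSMul R S] [Field M] [IsAlgClosed M] (ψ : R →+* M) :
    ∃ φ : S →+* M, φ.comp (algebraMap R S) = ψ := by
  have hprime : (RingHom.ker ψ).IsPrime := RingHom.ker_isPrime ψ
  obtain ⟨Q, -, hQ, hQ'⟩ := Ideal.exists_ideal_over_prime_of_isIntegral (RingHom.ker ψ) (⊥ : Ideal S)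
    (by simp [← RingHom.ker_eq_comap_bot])
  let P := Q.comap (algebraMap R S)
  have hP : P.IsPrime := Ideal.comap_isPrime _ Q
  have hψ : ∀ a ∈ P, ψ a = 0 := by
    intro a ha
    have : a ∈ RingHom.ker ψ := hQ' ▸ ha
    exact this
  let ψ' : R ⧸ P →+* M := Ideal.Quotient.lift P ψ hψ
  have hinj : Function.Injective ψ' := by
    rw [injective_iff_map_eq_zero]
    intro x
    obtain ⟨r, rfl⟩ := Ideal.Quotient.mk_surjective x
    intro h
    rw [Ideal.Quotient.eq_zero_iff_mem]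
    have h1 : r ∈ RingHom.ker ψ := h
    rw [← hQ'] at h1
    exact h1
  let _ : Algebra (R ⧸ P) M := ψ'.toAlgebra
  have : Module.IsTorsionFree (R ⧸ P) M := by
    have : FaithfulSMul (R ⧸ P) M := (faithfulSMul_iff_algebraMap_injective _ _).2 hinj
    infer_instance
  have : Module.IsTorsionFree (R ⧸ P) (S ⧸ Q) := by
    have : FaithfulSMul (R ⧸ P) (S ⧸ Q) :=
      (faithfulSMul_iff_algebraMap_injective _ _).2 Ideal.algebraMap_quotient_injective
    infer_instance
  have : Algebra.IsIntegral (R ⧸ P) (S ⧸ Q) := by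
    refine ⟨fun x => ?_⟩
    obtain ⟨s, rfl⟩ := Ideal.Quotient.mk_surjective x
    obtain ⟨f, hf, hfs⟩ := Algebra.IsIntegral.isIntegral (R := R) s
    refine ⟨f.map (Ideal.Quotient.mk P), hf.map _, ?_⟩
    rw [eval₂_map]
    have : (algebraMap (R ⧸ P) (S ⧸ Q)).comp (Ideal.Quotient.mk P) =
        (Ideal.Quotient.mk Q).comp (algebraMap R S) := by
      ext r; rfl
    rw [this, ← hom_eval₂, hfs, map_zero]
  let φ' : S ⧸ Q →ₐ[R ⧸ P] M := IsAlgClosed.lift
  refine ⟨(φ' : S ⧸ Q →+* M).comp (Ideal.Quotient.mk Q), ?_⟩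
  ext r
  have h1 : Ideal.Quotient.mk Q (algebraMap R S r) = algebraMap (R ⧸ P) (S ⧸ Q) (Ideal.Quotient.mk P r) := rfl
  simp only [RingHom.comp_apply, h1]
  show φ' (algebraMap (R ⧸ P) (S ⧸ Q) (Ideal.Quotient.mk P r)) = ψ r
  rw [φ'.commutes]
  rfl

private theorem exists_hom (K : Type) [Field K] [NumberField K] (p : ℕ) [Fact p.Prime] (α : 𝓞 K)
    (c : AlgebraicClosure (ZMod p))
    (hc : aeval c ((minpoly ℤ α).map (Int.castRingHom (ZMod p))) = 0) :
    ∃ φ : 𝓞 K →+* AlgebraicClosure (ZMod p), φ α = c := by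
  have hα : IsIntegral ℤ α := Algebra.IsIntegral.isIntegral α
  have h0 : (minpoly ℤ α).eval₂ (Int.castRingHom (AlgebraicClosure (ZMod p))) c = 0 := by
    rw [aeval_def, eval₂_map] at hc
    rw [← hc]
    congr 1
  let ψ : Algebra.adjoin ℤ ({α} : Set (𝓞 K)) →+* AlgebraicClosure (ZMod p) :=
    (AdjoinRoot.lift (Int.castRingHom (AlgebraicClosure (ZMod p))) c h0).comp
      (minpoly.equivAdjoin hα).symm.toRingEquiv.toRingHom
  have hfaith : FaithfulSMul (Algebra.adjoin ℤ ({α} : Set (𝓞 K))) (𝓞 K) := by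
    rw [faithfulSMul_iff_algebraMap_injective]
    exact Subtype.coe_injective
  have hint : Algebra.IsIntegral (Algebra.adjoin ℤ ({α} : Set (𝓞 K))) (𝓞 K) :=
    Algebra.IsIntegral.tower_top ℤ
  obtain ⟨φ, hφ⟩ := exists_extend (S := 𝓞 K) ψ
  refine ⟨φ, ?_⟩
  have hmem : α ∈ Algebra.adjoin ℤ ({α} : Set (𝓞 K)) := Algebra.self_mem_adjoin_singleton ℤ α
  have h1 : φ α = ψ ⟨α, hmem⟩ := by
    rw [← hφ]; rfl
  have h2 : (minpoly.equivAdjoin hα).symm ⟨α, hmem⟩ = AdjoinRoot.root (minpoly ℤ α) := by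
    rw [AlgEquiv.symm_apply_eq, minpoly.coe_equivAdjoin]
    apply Subtype.ext
    simp [AdjoinRoot.Minpoly.toAdjoin]
  rw [h1]
  show AdjoinRoot.lift (Int.castRingHom (AlgebraicClosure (ZMod p))) c h0
    ((minpoly.equivAdjoin hα).symm ⟨α, hmem⟩) = c
  rw [h2, AdjoinRoot.lift_root]

private theorem card_homs_le (K : Type) [Field K] [NumberField K] (p : ℕ) [Fact p.Prime]
    (P : Ideal (𝓞 K)) (hP : P.IsPrime) (hpP : (p : 𝓞 K) ∈ P)
    (T : Finset (𝓞 K →+* AlgebraicClosure (ZMod p))) (hT : ∀ φ ∈ T, RingHom.ker φ = P) :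
    T.card ≤ (Ideal.absNorm P).factorization p := by
  have hpp : p.Prime := Fact.out
  have hP0 : P ≠ ⊥ := by
    rintro rfl
    have : (p : 𝓞 K) = 0 := by simpa using hpP
    exact hpp.ne_zero (by exact_mod_cast this)
  have hmax : P.IsMaximal := hP.isMaximal hP0
  let _ : Field (𝓞 K ⧸ P) := Ideal.Quotient.field P
  have hchar : CharP (𝓞 K ⧸ P) p := by
    rw [CharP.charP_iff_prime_eq_zero hpp]
    have := (Ideal.Quotient.eq_zero_iff_mem (I := P)).2 hpP
    simpa using this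
  let _ : Algebra (ZMod p) (𝓞 K ⧸ P) := ZMod.algebra _ p
  have hfin : Finite (𝓞 K ⧸ P) := Ideal.finiteQuotientOfFreeOfNeBot P hP0
  have hcard : Ideal.absNorm P = p ^ Module.finrank (ZMod p) (𝓞 K ⧸ P) := by
    rw [Ideal.absNorm_apply, Submodule.cardQuot_apply, Module.natCard_eq_pow_finrank (K := ZMod p),
      Nat.card_zmod]
  rw [hcard, Nat.factorization_pow_self hpp]
  refine le_trans ?_ (card_algHom_le_finrank (ZMod p) (𝓞 K ⧸ P) (AlgebraicClosure (ZMod p)))
  let F : T → ((𝓞 K ⧸ P) →ₐ[ZMod p] AlgebraicClosure (ZMod p)) := fun φ =>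
    { Ideal.Quotient.lift P φ.1 (fun a ha => by
        have : a ∈ RingHom.ker φ.1 := by rw [hT φ.1 φ.2]; exact ha
        exact this) with
      commutes' := fun r => RingHom.congr_fun (Subsingleton.elim
        ((Ideal.Quotient.lift P φ.1 (fun a ha => by
          have : a ∈ RingHom.ker φ.1 := by rw [hT φ.1 φ.2]; exact ha
          exact this)).comp (algebraMap (ZMod p) (𝓞 K ⧸ P))) (algebraMap _ _)) r }
  have hF : Function.Injective F := by
    intro φ φ' h
    apply Subtype.ext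
    ext x
    have := DFunLike.congr_fun h (Ideal.Quotient.mk P x)
    exact this
  have := Nat.card_le_card_of_injective F hF
  rwa [Nat.card_eq_finsetCard] at this

/-- VW-A2 -/
theorem roots_le_sum_inertia (K : Type) [Field K] [NumberField K] (p : ℕ) [Fact p.Prime]
    (α : 𝓞 K) :
    (((minpoly ℤ α).map (Int.castRingHom (ZMod p))).rootSet
      (AlgebraicClosure (ZMod p))).ncard ≤ resDim K p := by
  classical
  have hpp : p.Prime := Fact.out
  set S := ((minpoly ℤ α).map (Int.castRingHom (ZMod p))).rootSet (AlgebraicClosure (ZMod p)) with hS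
  have hSfin : S.Finite := rootSet_finite _ _
  have hex : ∀ c : AlgebraicClosure (ZMod p), ∃ φ : 𝓞 K →+* AlgebraicClosure (ZMod p),
      c ∈ S → φ α = c := by
    intro c
    by_cases hc : c ∈ S
    · obtain ⟨φ, hφ⟩ := exists_hom K p α c (aeval_eq_zero_of_mem_rootSet hc)
      exact ⟨φ, fun _ => hφ⟩
    · obtain ⟨φ, -⟩ := exists_extend (R := ℤ) (S := 𝓞 K)
        (Int.castRingHom (AlgebraicClosure (ZMod p)))
      exact ⟨φ, fun h => absurd h hc⟩
  choose φ hφ using hex
  have hspan : (Ideal.span {(p : ℤ)}) ≠ ⊥ := by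
    rw [Ne, Ideal.span_singleton_eq_bot]
    exact_mod_cast hpp.ne_zero
  have hmaxp : (Ideal.span {(p : ℤ)}).IsMaximal := Int.ideal_span_isMaximal_of_prime p
  have hmem : ∀ ψ : 𝓞 K →+* AlgebraicClosure (ZMod p), RingHom.ker ψ ∈
      IsDedekindDomain.primesOverFinset (Ideal.span {(p : ℤ)}) (𝓞 K) := by
    intro ψ
    rw [IsDedekindDomain.mem_primesOverFinset_iff hspan]
    have hk : (RingHom.ker ψ).IsPrime := RingHom.ker_isPrime ψ
    refine ⟨hk, ?_⟩
    rw [Ideal.liesOver_iff]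
    have hne : (RingHom.ker ψ).under ℤ ≠ ⊤ := by
      intro h
      have h1 : (1 : ℤ) ∈ (RingHom.ker ψ).under ℤ := by rw [h]; trivial
      rw [Ideal.mem_comap, RingHom.mem_ker] at h1
      simp at h1
    refine hmaxp.eq_of_le hne ?_
    rw [Ideal.span_singleton_le_iff_mem, Ideal.mem_comap, RingHom.mem_ker]
    simp
  rw [Set.ncard_eq_toFinset_card S hSfin,
    Finset.card_eq_sum_card_fiberwise (f := fun c => RingHom.ker (φ c))
      (t := IsDedekindDomain.primesOverFinset (Ideal.span {(p : ℤ)}) (𝓞 K))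
      (fun c _ => hmem (φ c))]
  unfold resDim
  refine Finset.sum_le_sum fun P hP => ?_
  have hP' := (IsDedekindDomain.mem_primesOverFinset_iff hspan _).1 hP
  have hinj : Set.InjOn φ (hSfin.toFinset.filter fun c => RingHom.ker (φ c) = P) := by
    intro c hc c' hc' h
    simp only [Finset.coe_filter, Set.Finite.mem_toFinset, Set.mem_ofPred_eq] at hc hc'
    rw [← hφ c hc.1, ← hφ c' hc'.1, h]
  rw [← Finset.card_image_of_injOn hinj]
  refine card_homs_le K p P hP'.1 ?_ _ ?_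
  · have h1 := hP'.2.over
    have h2 : (p : ℤ) ∈ P.under ℤ := by rw [← h1]; exact Ideal.mem_span_singleton_self _
    rw [Ideal.mem_comap] at h2
    simpa using h2
  · intro ψ hψ
    obtain ⟨c, hc, rfl⟩ := Finset.mem_image.1 hψ
    exact (Finset.mem_filter.1 hc).2

end Pool.Agent.Helper12.VW
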