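import Pool.Agent.Helper21.VW.Base
import Pool.Agent.Helper21.VW.A2
import Pool.Agent.Helper14.VW.Different

open Polynomial NumberField

namespace Pool.Agent.Helper12.VW

/-- Integral polynomial with roots `f(t)/(θ - t)`. -/
private noncomputable def hh (F : ℤ[X]) (t : ℤ) : ℤ[X] := (taylor t F).reverse.integralNormalization

private theorem hh_deg (F : ℤ[X]) (t : ℤ) (ht : F.eval t ≠ 0) :
    (taylor t F).reverse.natDegree = F.natDegree ∧ (taylor t F).reverse.leadingCoeff = F.eval t := by
  have h0 : (taylor t F).coeff 0 = F.eval t := taylor_coeff_zero t F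
  have hne : (taylor t F).coeff 0 ≠ 0 := by rwa [h0]
  have hnt : (taylor t F).natTrailingDegree = 0 := by
    rw [natTrailingDegree_eq_zero]; right; exact hne
  constructor
  · rw [reverse_natDegree, hnt, natDegree_taylor, Nat.sub_zero]
  · rw [reverse_leadingCoeff, trailingCoeff, hnt, h0]

private theorem hh_monic (F : ℤ[X]) (t : ℤ) (ht : F.eval t ≠ 0) : (hh F t).Monic := by
  apply monic_integralNormalization
  intro h
  have := (hh_deg F t ht).2
  rw [h] at this
  exact ht this.symm

private theorem hh_natDegree (F : ℤ[X]) (t : ℤ) (ht : F.eval t ≠ 0) :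
    (hh F t).natDegree = F.natDegree := by
  rw [hh, natDegree_integralNormalization, (hh_deg F t ht).1]

private theorem hh_eval {E : Type} [Field E] (i : ℤ →+* E) (F : ℤ[X]) (t : ℤ) (ht : F.eval t ≠ 0)
    (hdeg : 1 ≤ F.natDegree) (x : E) (hx : x - i t ≠ 0) (h0 : F.eval₂ i x = 0) :
    (hh F t).eval₂ i (i (F.eval t) * (x - i t)⁻¹) = 0 := by
  obtain ⟨h1, h2⟩ := hh_deg F t ht
  rw [hh, ← h2, integralNormalization_eval₂_leadingCoeff_mul (by rw [h1]; exact hdeg)]
  let _ : Invertible (x - i t) := invertibleOfNonzero hx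
  have h3 := (eval₂_reverse_eq_zero_iff i (x - i t) (taylor t F)).2 (by
    rw [taylor_apply, eval₂_comp, eval₂_add, eval₂_X, eval₂_C, sub_add_cancel, h0])
  rw [invOf_eq_inv] at h3
  rw [h3, mul_zero]

private theorem hh_eval_zero {E : Type} [Field E] (i : ℤ →+* E) (F : ℤ[X]) (t : ℤ)
    (ht : F.eval t ≠ 0) (hdeg : 1 ≤ F.natDegree) (h0 : i F.leadingCoeff = 0) :
    (hh F t).eval₂ i 0 = 0 := by
  obtain ⟨h1, h2⟩ := hh_deg F t ht
  have h3 := integralNormalization_eval₂_leadingCoeff_mul (p := (taylor t F).reverse)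
    (by rw [h1]; exact hdeg) i 0
  rw [mul_zero] at h3
  rw [hh, h3, eval₂_at_zero, coeff_zero_reverse, leadingCoeff_taylor, h0, mul_zero]

/-- VW-A4 (uses A1, A2): reduction of a (possibly non-monic) polynomial with root field `K`. -/
theorem index_of_root_field {n : ℕ} (hn : 1 ≤ n) (a : Fin (n + 1) → ℤ) (hlast : a (Fin.last n) ≠ 0)
    (hirr : Irreducible (ratPoly a)) (K : Type) [Field K] [NumberField K]
    (hK : Module.finrank ℚ K = n) (θ : K) (hθ : aeval θ (ratPoly a) = 0)
    (p : ℕ) (hp : p.Prime) (hnp : n < p) : InInd a p (vD K p) := by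
  classical
  refine ⟨hp, ?_⟩
  have : Fact p.Prime := ⟨hp⟩
  show (fun i => (a i : ZMod p)) ∈ Ind n p (vD K p)
  set v : Fin (n + 1) → ZMod p := fun i => (a i : ZMod p) with hv
  by_cases hv0 : v = 0
  · exact Or.inl hv0
  right
  set F : ℤ[X] := toPoly a with hF
  obtain ⟨hFdeg, hFlead⟩ := natDegree_toPoly a hlast
  rw [← hF] at hFdeg hFlead
  have hFv : F.map (Int.castRingHom (ZMod p)) = toPoly v := by
    rw [hF, map_toPoly]; rfl
  have hvne : toPoly v ≠ 0 := by
    intro h
    apply hv0
    funext i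
    have := congrArg (fun q => q.coeff (i : ℕ)) h
    simp only [coeff_toPoly, coeff_zero, dif_pos i.2] at this
    exact this
  have hvdeg : (toPoly v).natDegree ≤ n := by
    rw [← hFv, ← hFdeg]; exact natDegree_map_le
  obtain ⟨tb, htb⟩ : ∃ t : ZMod p, (toPoly v).eval t ≠ 0 := by
    by_contra hcon
    push Not at hcon
    apply hvne
    apply eq_zero_of_natDegree_lt_card_of_eval_eq_zero (toPoly v) (f := (id : ZMod p → ZMod p))
      Function.injective_id
    · intro i; exact hcon i
    · rw [ZMod.card]; omega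
  set t : ℤ := (tb.val : ℤ) with ht
  have htcast : ((t : ℤ) : ZMod p) = tb := by rw [ht]; simp
  have hct : ((F.eval t : ℤ) : ZMod p) ≠ 0 := by
    have : ((F.eval t : ℤ) : ZMod p) = (toPoly v).eval tb := by
      rw [← hFv, ← htcast, eval_intCast_map]
      rfl
    rwa [this]
  have hc0 : F.eval t ≠ 0 := by
    intro h; rw [h] at hct; simp at hct
  -- the integral generator
  have hFθ : F.eval₂ (Int.castRingHom K) θ = 0 := by
    rw [aeval_def, ratPoly, eval₂_map] at hθ
    rw [← hθ]
    congr 1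
    exact RingHom.ext_int _ _
  have hθt : θ - (Int.castRingHom K) t ≠ 0 := by
    intro h
    have h1 : θ = Int.castRingHom K t := by rwa [sub_eq_zero] at h
    rw [h1, eval₂_hom] at hFθ
    have : ((F.eval t : ℤ) : K) = 0 := hFθ
    exact hc0 (by exact_mod_cast this)
  set ω : K := Int.castRingHom K (F.eval t) * (θ - Int.castRingHom K t)⁻¹ with hω
  have hhω := hh_eval (Int.castRingHom K) F t hc0 (by rw [hFdeg]; exact hn) θ hθt hFθ
  rw [← hω] at hhω
  have hωint : IsIntegral ℤ ω := ⟨hh F t, hh_monic F t hc0, hhω⟩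
  set α : 𝓞 K := ⟨ω, hωint⟩ with hα
  have hαint : IsIntegral ℤ α := Algebra.IsIntegral.isIntegral α
  have hαh : aeval α (hh F t) = 0 := by
    have h1 : algebraMap (𝓞 K) K (aeval α (hh F t)) = 0 := by
      rw [← aeval_algebraMap_apply]
      exact hhω
    exact (FaithfulSMul.algebraMap_eq_zero_iff (𝓞 K) K).1 h1
  have hω0 : ω ≠ 0 := mul_ne_zero (by
    intro h
    have : ((F.eval t : ℤ) : K) = 0 := h
    exact hc0 (by exact_mod_cast this)) (inv_ne_zero hθt)
  have hωtop : IntermediateField.adjoin ℚ {ω} = ⊤ := by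
    rw [eq_top_iff, ← adjoin_root_eq_top a hlast hirr K hK θ hθ,
      IntermediateField.adjoin_simple_le_iff]
    have h1 : θ = Int.castRingHom K t + Int.castRingHom K (F.eval t) * ω⁻¹ := by
      rw [hω, mul_inv, inv_inv, ← mul_assoc, mul_inv_cancel₀, one_mul]
      · ring
      · intro h
        have : ((F.eval t : ℤ) : K) = 0 := h
        exact hc0 (by exact_mod_cast this)
    rw [h1]
    have h2 : ω ∈ IntermediateField.adjoin ℚ {ω} := IntermediateField.mem_adjoin_simple_self ℚ ω
    exact add_mem (intCast_mem _ t) (mul_mem (intCast_mem _ _) (inv_mem h2))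
  have hmindeg : (minpoly ℤ α).natDegree = n := by
    have h1 : (minpoly ℚ ω).natDegree = n := by
      rw [(Field.primitive_element_iff_minpoly_natDegree_eq ℚ ω).1 hωtop, hK]
    rw [minpoly.isIntegrallyClosed_eq_field_fractions' ℚ hωint,
      (minpoly.monic hωint).natDegree_map] at h1
    rw [← NumberField.RingOfIntegers.minpoly_coe α]
    exact h1
  have hmin : minpoly ℤ α = hh F t := by
    symm
    refine eq_of_monic_of_dvd_of_natDegree_le (minpoly.monic hαint) (hh_monic F t hc0)
      (minpoly.isIntegrallyClosed_dvd hαint hαh) ?_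
    rw [hh_natDegree F t hc0, hmindeg, hFdeg]
  -- counting
  have hA1 := vD_add_sum_inertia_le K p (by rw [hK]; exact hnp)
  have hA2 := roots_le_sum_inertia K p α
  rw [hmin] at hA2
  set Fb := AlgebraicClosure (ZMod p)
  set R := ((hh F t).map (Int.castRingHom (ZMod p))).rootSet Fb with hR
  have hRfin : R.Finite := rootSet_finite _ _
  have hhne : (hh F t).map (Int.castRingHom (ZMod p)) ≠ 0 := ((hh_monic F t hc0).map _).ne_zero
  have hcastcomp : (algebraMap (ZMod p) Fb).comp (Int.castRingHom (ZMod p)) = Int.castRingHom Fb :=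
    RingHom.ext_int _ _
  have hmemR : ∀ y : Fb, (hh F t).eval₂ (Int.castRingHom Fb) y = 0 → y ∈ R := by
    intro y hy
    rw [hR, mem_rootSet]
    refine ⟨hhne, ?_⟩
    rw [aeval_def, eval₂_map, hcastcomp, hy]
  have hcb : (Int.castRingHom Fb) (F.eval t) ≠ 0 := by
    rw [← hcastcomp, RingHom.comp_apply]
    intro h
    rw [map_eq_zero] at h
    exact hct h
  have hZ : ∀ x ∈ (toPoly v).rootSet Fb, F.eval₂ (Int.castRingHom Fb) x = 0 := by
    intro x hx
    have := aeval_eq_zero_of_mem_rootSet hx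
    rwa [← hFv, aeval_def, eval₂_map, hcastcomp] at this
  have hZt : ∀ x ∈ (toPoly v).rootSet Fb, x - (Int.castRingHom Fb) t ≠ 0 := by
    intro x hx h
    have h1 := hZ x hx
    rw [sub_eq_zero.1 h, eval₂_hom] at h1
    exact hcb h1
  let m : Fb → Fb := fun x => (Int.castRingHom Fb) (F.eval t) * (x - (Int.castRingHom Fb) t)⁻¹
  have hminj : Set.InjOn m ((toPoly v).rootSet Fb) := by
    intro x _ y _ hxy
    have := inv_injective (mul_left_cancel₀ hcb hxy)
    exact sub_left_injective this
  have himg : m '' ((toPoly v).rootSet Fb) ⊆ R := by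
    rintro _ ⟨x, hx, rfl⟩
    exact hmemR _ (hh_eval _ F t hc0 (by rw [hFdeg]; exact hn) x (hZt x hx) (hZ x hx))
  have hnroots : nroots v ≤ R.ncard := by
    unfold nroots
    rw [← hminj.ncard_image]
    split_ifs with hvl
    · have h0 : (0 : Fb) ∉ m '' ((toPoly v).rootSet Fb) := by
        rintro ⟨x, hx, h⟩
        exact mul_ne_zero hcb (inv_ne_zero (hZt x hx)) h
      have h1 : (0 : Fb) ∈ R := by
        apply hmemR
        apply hh_eval_zero _ F t hc0 (by rw [hFdeg]; exact hn)
        rw [hFlead, ← hcastcomp, RingHom.comp_apply]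
        have : (Int.castRingHom (ZMod p)) (a (Fin.last n)) = 0 := hvl
        rw [this, map_zero]
      rw [← Set.ncard_insert_of_notMem h0 (hRfin.subset himg)]
      exact Set.ncard_le_ncard (Set.insert_subset h1 himg) hRfin
    · rw [add_zero]
      exact Set.ncard_le_ncard himg hRfin
  omega

end Pool.Agent.Helper12.VW
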