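import Pool.Agent.Helper12.VW.Defs

open Polynomial NumberField

namespace Pool.Agent.Helper12.VW

theorem coeff_toPoly {R : Type*} [Semiring R] {n : ℕ} (a : Fin (n + 1) → R) (j : ℕ) :
    (toPoly a).coeff j = if h : j < n + 1 then a ⟨j, h⟩ else 0 := by
  unfold toPoly
  rw [finsetSum_coeff]
  split_ifs with h
  · rw [Finset.sum_eq_single ⟨j, h⟩]
    · simp
    · intro i _ hi
      rw [coeff_C_mul, coeff_X_pow, if_neg, mul_zero]
      intro hij
      exact hi (Fin.ext hij.symm)
    · intro h; exact absurd (Finset.mem_univ _) h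
  · apply Finset.sum_eq_zero
    intro i _
    rw [coeff_C_mul, coeff_X_pow, if_neg, mul_zero]
    have := i.2
    omega

theorem natDegree_toPoly {R : Type*} [Semiring R] {n : ℕ} (a : Fin (n + 1) → R)
    (hlast : a (Fin.last n) ≠ 0) :
    (toPoly a).natDegree = n ∧ (toPoly a).leadingCoeff = a (Fin.last n) := by
  have h1 : (toPoly a).natDegree = n := by
    apply natDegree_eq_of_le_of_coeff_ne_zero
    · rw [natDegree_le_iff_coeff_eq_zero]
      intro j hj
      rw [coeff_toPoly, dif_neg (by omega)]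
    · rw [coeff_toPoly, dif_pos (Nat.lt_succ_self n)]
      exact hlast
  refine ⟨h1, ?_⟩
  rw [leadingCoeff, h1, coeff_toPoly, dif_pos (Nat.lt_succ_self n)]
  rfl

theorem map_toPoly {R S : Type*} [Semiring R] [Semiring S] {n : ℕ} (f : R →+* S)
    (a : Fin (n + 1) → R) : (toPoly a).map f = toPoly (fun i => f (a i)) := by
  ext j
  rw [coeff_map, coeff_toPoly, coeff_toPoly]
  split_ifs <;> simp

theorem natDegree_ratPoly {n : ℕ} (a : Fin (n + 1) → ℤ) (hlast : a (Fin.last n) ≠ 0) :
    (ratPoly a).natDegree = n ∧ (ratPoly a).leadingCoeff = (a (Fin.last n) : ℚ) := by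
  unfold ratPoly
  rw [map_toPoly]
  exact natDegree_toPoly (fun i => Int.castRingHom ℚ (a i)) (by simpa using hlast)

section

variable {n : ℕ} (a : Fin (n + 1) → ℤ) (hlast : a (Fin.last n) ≠ 0)
    (hirr : Irreducible (ratPoly a)) (K : Type) [Field K] [NumberField K]
    (hK : Module.finrank ℚ K = n) (θ : K) (hθ : aeval θ (ratPoly a) = 0)

include hlast hirr hθ in
theorem minpoly_root : minpoly ℚ θ = ratPoly a * C ((a (Fin.last n) : ℚ))⁻¹ := by
  rw [← (natDegree_ratPoly a hlast).2]
  exact (minpoly.eq_of_irreducible hirr hθ).symm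

include hlast hirr hθ in
theorem natDegree_minpoly_root : (minpoly ℚ θ).natDegree = n := by
  rw [minpoly_root a hlast hirr K θ hθ, natDegree_mul_C, (natDegree_ratPoly a hlast).1]
  exact inv_ne_zero (by exact_mod_cast hlast)

include hlast hirr hK hθ in
theorem adjoin_root_eq_top : IntermediateField.adjoin ℚ {θ} = ⊤ := by
  rw [Field.primitive_element_iff_minpoly_natDegree_eq, hK]
  exact natDegree_minpoly_root a hlast hirr K θ hθ

end

end Pool.Agent.Helper12.VW
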